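import Pool.Agent.Q35.HB.Stm

/-!
# Job CR of the project HB
-/

set_option autoImplicit false

namespace Pool.Agent.Q182.HB

open MvPolynomial Pool.Agent.Q35.ST Pool.Agent.Q35.HB

/-! ### Algebraic closure of a subset in a field -/

section cl

variable {k Ω : Type} [Field k] [Field Ω] [Algebra k Ω]

theorem mem_cl {s : Set Ω} {x : Ω} : x ∈ (AlgebraicIndependent.matroid k Ω).closure s ↔
    IsAlgebraic (Algebra.adjoin k s) x := by
  rw [AlgebraicIndependent.matroid_closure_eq]
  exact Iff.rfl

/-- the elements of `Ω` algebraic over the field generated by `s` -/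
noncomputable def cf (k : Type) {Ω : Type} [Field k] [Field Ω] [Algebra k Ω] (s : Set Ω) :
    Subfield Ω where
  carrier := (AlgebraicIndependent.matroid k Ω).closure s
  mul_mem' := by
    intro a b ha hb
    rw [mem_cl] at ha hb ⊢
    exact ha.mul hb
  one_mem' := by
    rw [mem_cl]
    exact isAlgebraic_one
  add_mem' := by
    intro a b ha hb
    rw [mem_cl] at ha hb ⊢
    exact ha.add hb
  zero_mem' := by
    rw [mem_cl]
    exact isAlgebraic_zero
  neg_mem' := by
    intro a ha
    rw [mem_cl] at ha ⊢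
    exact ha.neg
  inv_mem' := by
    intro a ha
    rw [mem_cl] at ha ⊢
    exact ha.inv

theorem mem_cf {s : Set Ω} {x : Ω} : x ∈ cf k s ↔ IsAlgebraic (Algebra.adjoin k s) x := mem_cl

theorem mem_cf' {s : Set Ω} {x : Ω} :
    x ∈ cf k s ↔ x ∈ (AlgebraicIndependent.matroid k Ω).closure s := Iff.rfl

theorem subset_cf (s : Set Ω) {x : Ω} (hx : x ∈ s) : x ∈ cf k s := by
  rw [mem_cf']
  exact (AlgebraicIndependent.matroid k Ω).mem_closure_of_mem hx (by
    rw [AlgebraicIndependent.matroid_e]
    exact Set.subset_univ _)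

theorem alg_mem_cf (s : Set Ω) (c : k) : algebraMap k Ω c ∈ cf k s := by
  rw [mem_cf]
  have h1 : algebraMap k Ω c = algebraMap (Algebra.adjoin k s) Ω
      (algebraMap k (Algebra.adjoin k s) c) := rfl
  rw [h1]
  exact isAlgebraic_algebraMap _

theorem cf_le {s t : Set Ω} (h : ∀ x ∈ s, x ∈ cf k t) {x : Ω} (hx : x ∈ cf k s) : x ∈ cf k t := by
  rw [mem_cf'] at hx ⊢
  have h1 : (AlgebraicIndependent.matroid k Ω).closure s ⊆
      (AlgebraicIndependent.matroid k Ω).closure
        ((AlgebraicIndependent.matroid k Ω).closure t) :=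
    (AlgebraicIndependent.matroid k Ω).closure_subset_closure fun x hx => h x hx
  rw [Matroid.closure_closure] at h1
  exact h1 hx

theorem card_le_of_cf {ι : Type} (ξ : ι → Ω) (I C : Finset ι)
    (hI : AlgebraicIndependent k (fun t : I => ξ t)) (h : ∀ t ∈ I, ξ t ∈ cf k (ξ '' (C : Set ι))) :
    I.card ≤ C.card := by
  classical
  have h1 : (AlgebraicIndependent.matroid k Ω).Indep (ξ '' (I : Set ι)) := by
    rw [AlgebraicIndependent.matroid_indep_iff]
    have h2 := hI.to_subtype_range
    have h3 : Set.range (fun t : I => ξ t) = ξ '' (I : Set ι) := by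
      ext x
      simp
    rw [h3] at h2
    exact h2
  have hinj : Set.InjOn ξ (I : Set ι) := by
    intro a ha b hb hab
    exact congrArg Subtype.val (hI.injective (a₁ := ⟨a, ha⟩) (a₂ := ⟨b, hb⟩) hab)
  have h2 : ξ '' (I : Set ι) ⊆ (AlgebraicIndependent.matroid k Ω).closure (ξ '' (C : Set ι)) := by
    rintro _ ⟨t, ht, rfl⟩
    exact h t ht
  have h3 := h1.encard_le_eRk_of_subset h2
  rw [Matroid.eRk_closure_eq] at h3
  have h4 := h3.trans ((AlgebraicIndependent.matroid k Ω).eRk_le_encard _)
  rw [hinj.encard_image, Set.encard_coe_eq_coe_finsetCard] at h4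
  have h5 := h4.trans (Set.encard_image_le ξ (C : Set ι))
  rw [Set.encard_coe_eq_coe_finsetCard] at h5
  exact_mod_cast h5

/-- a maximal algebraically independent subfamily -/
theorem exists_basis {ι : Type} [DecidableEq ι] (ξ : ι → Ω) (B : Finset ι) :
    ∃ I ⊆ B, AlgebraicIndependent k (fun t : I => ξ t) ∧
      ∀ t ∈ B, ξ t ∈ cf k (ξ '' (I : Set ι)) := by
  classical
  let S : Finset (Finset ι) := B.powerset.filter fun I => AlgebraicIndependent k (fun t : I => ξ t)
  have hS : S.Nonempty := by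
    refine ⟨∅, ?_⟩
    rw [Finset.mem_filter]
    refine ⟨Finset.empty_mem_powerset _, ?_⟩
    exact algebraicIndependent_empty_type
  obtain ⟨I, hI, hmax⟩ := Finset.exists_max_image S Finset.card hS
  rw [Finset.mem_filter, Finset.mem_powerset] at hI
  refine ⟨I, hI.1, hI.2, fun t ht => ?_⟩
  by_cases htI : t ∈ I
  · exact subset_cf _ ⟨t, htI, rfl⟩
  by_contra hcon
  have h1 : AlgebraicIndepOn k ξ (insert t (I : Set ι)) := by
    refine AlgebraicIndepOn.insert hI.2 ?_
    rw [mem_cf] at hcon
    exact hcon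
  have h2 : insert t I ∈ S := by
    rw [Finset.mem_filter, Finset.mem_powerset]
    refine ⟨Finset.insert_subset ht hI.1, ?_⟩
    rw [← Finset.coe_insert] at h1
    exact h1
  have h3 := hmax _ h2
  rw [Finset.card_insert_of_notMem htI] at h3
  omega

end cl

/-! ### Linear systems over a subfield -/

theorem lin_coord {m : ℕ} {E Ω : Type} [Field E] [Field Ω] [Algebra E Ω]
    (M : Matrix (Fin m) (Fin m) E) :
    ∃ J : Finset (Fin m), J.card ≤ Module.finrank Ω
        (LinearMap.ker (M.map (algebraMap E Ω)).mulVecLin) ∧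
      ∀ v : Fin m → Ω, Matrix.mulVec (M.map (algebraMap E Ω)) v = 0 → ∀ a, ∃ c : Fin m → E,
        v a = ∑ j ∈ J, algebraMap E Ω (c j) * v j := by
  classical
  obtain ⟨κ, r, hr, hspan, hli⟩ := exists_linearIndependent' E (fun a : Fin m => M.col a)
  have : Finite κ := Finite.of_injective r hr
  have : Fintype κ := Fintype.ofFinite κ
  -- the left inverse
  have hinj : LinearMap.ker (Fintype.linearCombination E ((fun a : Fin m => M.col a) ∘ r)) = ⊥ := by
    rw [LinearMap.ker_eq_bot]
    exact linearIndependent_iff_injective_fintypeLinearCombination.1 hli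
  obtain ⟨g, hg⟩ := LinearMap.exists_leftInverse_of_injective _ hinj
  have hgr : ∀ s, g (M.col (r s)) = Pi.single s 1 := by
    intro s
    have h1 := LinearMap.congr_fun hg (Pi.single s 1)
    rw [LinearMap.comp_apply, Fintype.linearCombination_apply_single, one_smul] at h1
    exact h1
  obtain ⟨P, hP⟩ : ∃ P : Matrix κ (Fin m) E, ∀ v, P.mulVec v = g v :=
    ⟨LinearMap.toMatrix' g, fun v => LinearMap.toMatrix'_mulVec g v⟩
  have hPM : ∀ s s', (P * M) s (r s') = if s = s' then 1 else 0 := by
    intro s s'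
    have h1 : (P * M) s (r s') = (P.mulVec (M.col (r s'))) s := rfl
    rw [h1, hP, hgr, Pi.single_apply]
  set J : Finset (Fin m) := Finset.univ \ (Finset.univ.image r) with hJ
  have hJcard : J.card + Fintype.card κ = m := by
    have h1 : (Finset.univ.image r).card = Fintype.card κ := by
      rw [Finset.card_image_of_injective _ hr, Finset.card_univ]
    have h2 := Finset.card_sdiff_add_card_eq_card (Finset.subset_univ (Finset.univ.image r))
    rw [h1, Finset.card_univ, Fintype.card_fin] at h2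
    exact h2
  refine ⟨J, ?_, ?_⟩
  · -- the dimension of the kernel
    have h1 := LinearMap.finrank_range_add_finrank_ker (M.map (algebraMap E Ω)).mulVecLin
    rw [Module.finrank_fin_fun] at h1
    have h2 : Module.finrank Ω (LinearMap.range (M.map (algebraMap E Ω)).mulVecLin) ≤
        Fintype.card κ := by
      have h3 : LinearMap.range (M.map (algebraMap E Ω)).mulVecLin ≤
          Submodule.span Ω (Set.range fun s : κ => (M.map (algebraMap E Ω)).col (r s)) := by
        rw [Matrix.range_mulVecLin, Submodule.span_le]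
        rintro _ ⟨a, rfl⟩
        have h4 : M.col a ∈ Submodule.span E (Set.range ((fun a : Fin m => M.col a) ∘ r)) := by
          rw [hspan]
          exact Submodule.subset_span ⟨a, rfl⟩
        rw [Submodule.mem_span_range_iff_exists_fun] at h4
        obtain ⟨c, hc⟩ := h4
        have h5 : (M.map (algebraMap E Ω)).col a =
            ∑ s, algebraMap E Ω (c s) • (M.map (algebraMap E Ω)).col (r s) := by
          funext i
          have h6 := congrArg (algebraMap E Ω) (congrFun hc i)
          rw [Finset.sum_apply, map_sum] at h6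
          rw [Finset.sum_apply]
          refine Eq.trans h6.symm ?_
          refine Finset.sum_congr rfl fun s _ => ?_
          show algebraMap E Ω (c s * M i (r s)) = algebraMap E Ω (c s) * algebraMap E Ω (M i (r s))
          rw [map_mul]
        rw [SetLike.mem_coe, h5]
        exact Submodule.sum_mem _ fun s _ => Submodule.smul_mem _ _ (Submodule.subset_span ⟨s, rfl⟩)
      exact (Submodule.finrank_mono h3).trans (finrank_range_le_card _)
    omega
  · intro v hv a
    by_cases ha : a ∈ J
    · refine ⟨Pi.single a 1, ?_⟩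
      rw [Finset.sum_eq_single a]
      · rw [Pi.single_eq_same, map_one, one_mul]
      · intro b _ hb
        rw [Pi.single_eq_of_ne hb, map_zero, zero_mul]
      · intro h
        exact absurd ha h
    · rw [hJ, Finset.mem_sdiff, not_and_not_right] at ha
      obtain ⟨s, _, rfl⟩ := Finset.mem_image.1 (ha (Finset.mem_univ _))
      refine ⟨fun j => -(P * M) s j, ?_⟩
      have h1 : Matrix.mulVec ((P * M).map (algebraMap E Ω)) v = 0 := by
        rw [Matrix.map_mul, ← Matrix.mulVec_mulVec, hv, Matrix.mulVec_zero]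
      have h2 : ∑ b, algebraMap E Ω ((P * M) s b) * v b = 0 := congrFun h1 s
      have h3 : ∑ b, algebraMap E Ω ((P * M) s b) * v b =
          ∑ b ∈ J, algebraMap E Ω ((P * M) s b) * v b +
          ∑ b ∈ Finset.univ.image r, algebraMap E Ω ((P * M) s b) * v b := by
        rw [hJ, Finset.sum_sdiff (Finset.subset_univ _)]
      have h4 : ∑ b ∈ Finset.univ.image r, algebraMap E Ω ((P * M) s b) * v b = v (r s) := by
        rw [Finset.sum_image fun x _ y _ h => hr h, Finset.sum_eq_single s]
        · rw [hPM, if_pos rfl, map_one, one_mul]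
        · intro b _ hb
          rw [hPM, if_neg hb.symm, map_zero, zero_mul]
        · intro h
          exact absurd (Finset.mem_univ _) h
      rw [h3, h4] at h2
      rw [eq_neg_of_add_eq_zero_right h2, ← Finset.sum_neg_distrib]
      refine Finset.sum_congr rfl fun b _ => ?_
      rw [map_neg, neg_mul]

/-! ### Polynomials of low degree in one block -/

section poly

variable {κ : Type} [DecidableEq κ] {n : κ → ℕ} {k Ω : Type} [Field k] [Field Ω] [Algebra k Ω]

omit [DecidableEq κ] in
theorem vars_of_zero {u : κ → ℕ} {G : MvPolynomial (Pc n) k} (h : MH Set.univ u G) {l : κ}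
    (hl : u l = 0) : ∀ t ∈ G.vars, t.1 ≠ l := by
  classical
  rintro ⟨l', i⟩ ht h0
  simp only at h0
  subst h0
  obtain ⟨m, hm, hmt⟩ := (MvPolynomial.mem_vars_iff_mem_support _).1 ht
  have h1 := h m hm l' (Set.mem_univ _)
  rw [hl, Finset.sum_eq_zero_iff] at h1
  exact Finsupp.mem_support_iff.1 hmt (h1 i (Finset.mem_univ _))

theorem aeval_upd_of_zero {u : κ → ℕ} {G : MvPolynomial (Pc n) k} (h : MH Set.univ u G) {l : κ}
    (hl : u l = 0) (ξ : Pc n → Ω) (v : Fin (n l + 1) → Ω) :
    aeval (upd ξ l v) G = aeval ξ G := by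
  refine eval₂Hom_congr' rfl (fun t ht _ => ?_) rfl
  have h1 := vars_of_zero h hl t ht
  unfold upd
  rw [Function.update_of_ne h1]

theorem aeval_upd_of_one {u : κ → ℕ} {G : MvPolynomial (Pc n) k} (h : MH Set.univ u G) {l : κ}
    (hl : u l = 1) (ξ : Pc n → Ω) (v : Fin (n l + 1) → Ω) :
    aeval (upd ξ l v) G = ∑ a, aeval ξ (pderiv (⟨l, a⟩ : Pc n) G) * v a := by
  have h1 := h.EU (Set.mem_univ l)
  rw [hl, Nat.cast_one, C_1, one_mul] at h1
  unfold EU at h1
  conv_lhs => rw [← h1]
  rw [map_sum]
  refine Finset.sum_congr rfl fun a _ => ?_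
  rw [map_mul, aeval_X]
  have h2 : upd ξ l v ⟨l, a⟩ = v a := by
    unfold upd
    rw [Function.update_self]
  rw [h2, aeval_upd_of_zero (h.pderiv (⟨l, a⟩ : Pc n)) (by
    show u l - (if l = l then 1 else 0) = 0
    rw [if_pos rfl, hl]) ξ v, mul_comm]

omit [Field Ω] in
theorem upd_self (ξ : Pc n → Ω) (l : κ) : upd ξ l (fun a => ξ ⟨l, a⟩) = ξ := by
  funext t
  unfold upd
  by_cases h : t.1 = l
  · subst h
    rw [Function.update_self]
  · rw [Function.update_of_ne h]

end poly

theorem cr (hR : S_RAD) (_hM : S_MAT) : S_CR := by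
  classical
  intro κ _ _ n k Ω _ _ _ _ _ _ F hF hn hsm ξ hξ I hI hcard l
  by_contra hcon
  push Not at hcon
  -- the coordinates outside the block
  set B : Finset (Pc n) := Finset.univ.filter fun t => t.1 ≠ l with hB
  obtain ⟨I', hI'B, hI', hI'c⟩ := exists_basis (k := k) ξ B
  -- the matrix
  have hdeg : ∀ i : Fin (n l + 1), MH Set.univ (fun l' => 2 - if l' = l then 1 else 0)
      (pderiv (⟨l, i⟩ : Pc n) F) := fun i => hF.pderiv (⟨l, i⟩ : Pc n)
  have hdeg2 : ∀ i a : Fin (n l + 1),
      MH Set.univ (fun l' => (2 - if l' = l then 1 else 0) - if l' = l then 1 else 0)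
      (pderiv (⟨l, a⟩ : Pc n) (pderiv (⟨l, i⟩ : Pc n) F)) := fun i a =>
    (hdeg i).pderiv (⟨l, a⟩ : Pc n)
  have hmem : ∀ i a : Fin (n l + 1), aeval ξ (pderiv (⟨l, a⟩ : Pc n) (pderiv (⟨l, i⟩ : Pc n) F)) ∈
      cf k (ξ '' (B : Set (Pc n))) := by
    intro i a
    have h0 : aeval ξ (pderiv (⟨l, a⟩ : Pc n) (pderiv (⟨l, i⟩ : Pc n) F)) =
        aeval (fun t => if t.1 = l then 0 else ξ t)
          (pderiv (⟨l, a⟩ : Pc n) (pderiv (⟨l, i⟩ : Pc n) F)) := by
      refine eval₂Hom_congr' rfl (fun t ht _ => ?_) rfl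
      have h1 := vars_of_zero (hdeg2 i a) (l := l) (by simp) t ht
      rw [if_neg h1]
    rw [h0]
    refine MvPolynomial.eval₂_mem (fun m _ => alg_mem_cf _ _) fun t => ?_
    split_ifs with h1
    · exact (cf k (ξ '' (B : Set (Pc n)))).zero_mem
    · have h2 : t ∈ (B : Set (Pc n)) := by
        rw [hB, Finset.mem_coe, Finset.mem_filter]
        exact ⟨Finset.mem_univ _, h1⟩
      exact subset_cf (k := k) (ξ '' (B : Set (Pc n))) (Set.mem_image_of_mem ξ h2)
  set M : Matrix (Fin (n l + 1)) (Fin (n l + 1)) (cf k (ξ '' (B : Set (Pc n)))) :=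
    fun i a => Subtype.mk (aeval ξ (pderiv (⟨l, a⟩ : Pc n) (pderiv (⟨l, i⟩ : Pc n) F)))
      (hmem i a) with hMdef
  have hMv : ∀ v : Fin (n l + 1) → Ω, ∀ i,
      Matrix.mulVec (M.map (algebraMap (cf k (ξ '' (B : Set (Pc n)))) Ω)) v i =
        aeval (upd ξ l v) (pderiv (⟨l, i⟩ : Pc n) F) := by
    intro v i
    rw [aeval_upd_of_one (hdeg i) (by simp)]
    rfl
  obtain ⟨J, hJ1, hJ2⟩ := lin_coord (Ω := Ω) M
  have h1 := hR κ n k Ω F hF hsm l ξ (fun m _ => hξ m) I' (fun t ht => by
    have h2 := hI'B ht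
    rw [hB, Finset.mem_filter] at h2
    exact h2.2) hI' (LinearMap.ker (M.map (algebraMap (cf k (ξ '' (B : Set (Pc n)))) Ω)).mulVecLin)
    (fun v hv i => by
      rw [← hMv]
      exact congrFun (LinearMap.mem_ker.1 hv) i)
  set C : Finset (Pc n) := I' ∪ J.image fun j => ⟨l, j⟩ with hC
  have hCB : ∀ t ∈ B, ξ t ∈ cf k (ξ '' (C : Set (Pc n))) := by
    intro t ht
    refine cf_le (s := ξ '' (I' : Set (Pc n))) ?_ (hI'c t ht)
    rintro _ ⟨s, hs, rfl⟩
    refine subset_cf _ ⟨s, ?_, rfl⟩
    rw [hC, Finset.mem_coe]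
    exact Finset.mem_union_left _ hs
  have hall : ∀ t, ξ t ∈ cf k (ξ '' (C : Set (Pc n))) := by
    intro t
    by_cases ht : t ∈ B
    · exact hCB t ht
    · have h2 : t.1 = l := by
        by_contra h3
        exact ht (by
          rw [hB, Finset.mem_filter]
          exact ⟨Finset.mem_univ _, h3⟩)
      obtain ⟨l', a⟩ := t
      simp only at h2
      subst h2
      obtain ⟨c, hc⟩ := hJ2 (fun a => ξ ⟨l', a⟩) (by
        funext i
        rw [hMv, upd_self, hcon i]
        rfl) a
      rw [hc]
      refine Subfield.sum_mem _ fun j hj => Subfield.mul_mem _ ?_ ?_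
      · refine cf_le (s := ξ '' (B : Set (Pc n))) ?_ (c j).2
        rintro _ ⟨s, hs, rfl⟩
        exact hCB s hs
      · refine subset_cf _ ⟨⟨l', j⟩, ?_, rfl⟩
        rw [hC, Finset.mem_coe]
        exact Finset.mem_union_right _ (Finset.mem_image_of_mem _ hj)
  have h2 := card_le_of_cf ξ I C hI fun t _ => hall t
  have h3 : C.card ≤ I'.card + J.card :=
    (Finset.card_union_le _ _).trans (Nat.add_le_add_left Finset.card_image_le _)
  have h4 := hn l
  omega

end Pool.Agent.Q182.HB
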