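import Pool.Agent.Q35.ST.All
import Pool.Agent.Q35.ST.Main
import Pool.Agent.Q35.ST.Dsc
import Pool.Agent.Q35.HB.Stm

/-!
# Project HB (helper35): every divisor dominates the base of one of the fibrations (job HOR)
-/

set_option autoImplicit false

namespace Pool.Agent.Q182.HB

open MvPolynomial Pool.Agent.Q35.ST Pool.Agent.Q35.HB

/-- a family which satisfies a relation is not algebraically independent -/
theorem not_algInd_of_vars {ι k Ω : Type} [Field k] [Field Ω] [Algebra k Ω] (ξ : ι → Ω)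
    (C : Finset ι) {f : MvPolynomial ι k} (hf : ∀ t ∈ f.vars, t ∈ C) (h0 : aeval ξ f = 0)
    (hne : f ≠ 0) : ¬ AlgebraicIndependent k (fun t : C => ξ t) := by
  intro hI
  obtain ⟨q, hq⟩ := MvPolynomial.exists_rename_eq_of_vars_subset_range f
    (Subtype.val : C → ι) Subtype.val_injective (by
      intro t ht
      exact ⟨⟨t, hf t ht⟩, rfl⟩)
  rw [← hq, aeval_rename] at h0
  have h1 : q = 0 := by
    apply hI
    rw [map_zero]
    exact h0
  apply hne
  rw [← hq, h1, map_zero]

section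

variable {κ : Type} [Fintype κ] [DecidableEq κ] {n : κ → ℕ} {k : Type} [Field k]

/-- a saturated subvariety without critical directions is the whole hypersurface -/
theorem le_span_of_crit_empty [CharZero k] [IsAlgClosed k] {F : MvPolynomial (Pc n) k} {d : κ → ℕ}
    (hF : MH Set.univ d F) (hd : ∀ l, d l ≠ 0) (hn : ∀ l, 2 ≤ n l) (hsm : Smth F)
    {P : Ideal (MvPolynomial (Pc n) k)} (h : Sat F P) (hcr : crit F P = ∅) :
    P ≤ Ideal.span {F} := by
  obtain ⟨f, hf, hfz⟩ := step1 sA sMIN hF hd hn hsm h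
  obtain ⟨p, hp, hpf⟩ := exists_pt h.prime hf
  obtain ⟨_, hp2⟩ := hfz p hp hpf
  intro g hg
  obtain ⟨q, hq⟩ := hp2 g hg
  rw [hcr] at hq
  have : Fro (((∅ : Finset κ)ᶜ : Finset κ) : Set κ) p = ⊥ := by
    unfold Fro
    rw [Ideal.span_eq_bot]
    rintro r ⟨s, hs, rfl⟩
    simp at hs
  rw [this, Ideal.mem_bot, sub_eq_zero] at hq
  rw [hq]
  exact Ideal.mul_mem_right _ _ (Ideal.subset_span rfl)

end

attribute [local instance] MvPolynomial.algebraMvPolynomial in
theorem hor (hST : S_STB) (hM : S_MAT) (hC : S_CR) : S_HOR := by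
  classical
  intro κ _ _ n k _ _ F hF hn hsm Ω _ _ _ _ ξ hξ hFξ I hI hcard hex
  obtain ⟨f0, hf0, hf0'⟩ := hex
  by_contra hcon
  push Not at hcon
  set Q : Ideal (MvPolynomial (Pc n) k) :=
    RingHom.ker (aeval ξ : MvPolynomial (Pc n) k →ₐ[k] Ω) with hQ
  have hQp : Q.IsPrime := RingHom.ker_isPrime _
  have hmem : ∀ f, f ∈ Q ↔ aeval ξ f = 0 := fun f => RingHom.mem_ker
  have hstd : ∀ l, StD F Q l := by
    intro l i j f hf
    by_cases hij : i = j
    · subst hij
      rw [sub_self]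
      exact Q.zero_mem
    · rw [hmem]
      have hne : (⟨l, i⟩ : Pc n) ≠ ⟨l, j⟩ := by
        intro h
        apply hij
        simpa using h
      refine hST (Pc n) k Ω F ξ ⟨l, i⟩ ⟨l, j⟩ hne hFξ ?_ f ((hmem f).1 hf)
      obtain ⟨g, hg1, hg2, hg3, hg4⟩ := hcon l i j hij
      set D : Finset (Pc n) := (Finset.univ.erase ⟨l, i⟩).erase ⟨l, j⟩ with hD
      have hDm : ∀ t, t ∈ D ↔ t ≠ ⟨l, i⟩ ∧ t ≠ ⟨l, j⟩ := by
        intro t
        rw [hD, Finset.mem_erase, Finset.mem_erase]
        constructor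
        · rintro ⟨h1, h2, _⟩
          exact ⟨h2, h1⟩
        · rintro ⟨h1, h2⟩
          exact ⟨h2, h1, Finset.mem_univ _⟩
      have hDc : D.card ≤ I.card := by
        rw [hD, Finset.card_erase_of_mem (Finset.mem_erase.2 ⟨hne.symm, Finset.mem_univ _⟩),
          Finset.card_erase_of_mem (Finset.mem_univ _)]
        have h5 : (Finset.univ : Finset (Pc n)).card ≤ I.card + 2 := by
          rw [Finset.card_univ]
          exact hcard
        omega
      have hDn : ¬ AlgebraicIndependent k (fun t : D => ξ t) := by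
        refine not_algInd_of_vars ξ D (f := g) (fun t ht => ?_) hg3 hg4
        rw [hDm]
        exact ⟨fun h => hg1 (h ▸ ht), fun h => hg2 (h ▸ ht)⟩
      obtain ⟨t, ht, htr⟩ := hM (Pc n) k Ω ξ I D hI hDc hDn
      have hLo : IntermediateField.adjoin k (ξ '' (D : Set (Pc n))) =
          Lo k ξ ⟨l, i⟩ ⟨l, j⟩ := by
        unfold Lo
        congr 1
        congr 1
        ext t
        rw [Finset.mem_coe, hDm]
        rfl
      rw [hLo] at htr
      rw [hDm] at ht
      by_cases h1 : t = ⟨l, i⟩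
      · left
        rw [← h1]
        rw [h1] at htr ⊢
        exact htr
      · right
        have h2 : t = ⟨l, j⟩ := by
          by_contra h3
          exact ht ⟨h1, h3⟩
        rw [h2] at htr
        exact htr
  have hcr := hC κ n k Ω F hF hn (smth_ext hsm _) ξ hξ I hI hcard
  have hste : ∀ l, StE Q l := by
    intro l f hf
    obtain ⟨j, hj⟩ := hcr l
    have hj' : pderiv (⟨l, j⟩ : Pc n) F ∉ Q := fun h => hj ((hmem _).1 h)
    have h1 : pderiv (⟨l, j⟩ : Pc n) F * ∑ i : Fin (n l + 1), X ⟨l, i⟩ * pderiv ⟨l, i⟩ f =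
        (∑ i : Fin (n l + 1), X ⟨l, i⟩ * pderiv ⟨l, i⟩ F) * pderiv (⟨l, j⟩ : Pc n) f -
        ∑ i : Fin (n l + 1), X ⟨l, i⟩ * (pderiv ⟨l, i⟩ F * pderiv ⟨l, j⟩ f -
          pderiv ⟨l, j⟩ F * pderiv ⟨l, i⟩ f) := by
      rw [Finset.mul_sum, Finset.sum_mul, ← Finset.sum_sub_distrib]
      refine Finset.sum_congr rfl fun i _ => ?_
      ring
    refine (hQp.mem_or_mem (x := pderiv (⟨l, j⟩ : Pc n) F) ?_).resolve_left hj'
    rw [h1]
    refine Q.sub_mem ?_ ?_
    · refine Q.mul_mem_right _ ?_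
      have h2 := hF.EU (Set.mem_univ l)
      unfold EU at h2
      rw [h2]
      exact Q.mul_mem_left _ ((hmem F).2 hFξ)
    · refine Q.sum_mem fun i _ => Q.mul_mem_left _ (hstd l i j f hf)
  have hsat : Sat F Q := by
    refine ⟨hQp, (hmem F).2 hFξ, hstd, hste, fun l => ?_⟩
    obtain ⟨i, hi⟩ := hξ l
    refine ⟨i, fun h => hi ?_⟩
    rw [hmem, aeval_X] at h
    exact h
  -- pass to the algebraic closure
  have hbot : (⊥ : Ideal (MvPolynomial (Pc n) (AlgebraicClosure k))).comap
      (algebraMap (MvPolynomial (Pc n) k) (MvPolynomial (Pc n) (AlgebraicClosure k))) ≤ Q := by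
    intro f hf
    rw [Ideal.mem_comap, Ideal.mem_bot] at hf
    have hinj : Function.Injective
        (map (algebraMap k (AlgebraicClosure k)) : MvPolynomial (Pc n) k →+* _) :=
      map_injective _ (algebraMap k (AlgebraicClosure k)).injective
    have : f = 0 := hinj (by rw [map_zero]; exact hf)
    rw [this]
    exact Q.zero_mem
  obtain ⟨Q₂, -, hQ₂, hQc⟩ := Ideal.exists_ideal_over_prime_of_isIntegral Q
    (⊥ : Ideal (MvPolynomial (Pc n) (AlgebraicClosure k))) hbot
  have hQc' : ∀ f, map (algebraMap k (AlgebraicClosure k)) f ∈ Q₂ ↔ f ∈ Q := by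
    intro f
    rw [← hQc, Ideal.mem_comap]
    rfl
  obtain ⟨P', hP'Q, hP's, hP'⟩ := hsat.over (algebraMap k (AlgebraicClosure k)) sMIN hQ₂
    (fun f hf => (hQc' f).2 hf) (by
      intro l
      obtain ⟨i, hi⟩ := hsat.prop l
      refine ⟨i, fun h => hi ?_⟩
      rw [← hQc', map_X]
      exact h)
  have hce : crit (map (algebraMap k (AlgebraicClosure k)) F) P' = ∅ := by
    rw [Finset.eq_empty_iff_forall_notMem]
    intro l hl
    rw [mem_crit] at hl
    obtain ⟨j, hj⟩ := hcr l
    apply hj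
    have h1 := hP'Q (hl j)
    rw [pderiv_map, hQc'] at h1
    exact (hmem _).1 h1
  have h1 := le_span_of_crit_empty (hF.map (algebraMap k (AlgebraicClosure k)))
    (fun _ => two_ne_zero) hn hsm hP's hce (hP' f0 ((hmem f0).2 hf0))
  rw [Ideal.mem_span_singleton] at h1
  exact hf0' (dvd_of_map_dvd _ h1)

end Pool.Agent.Q182.HB
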