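import Pool.Agent.Q182.HB.Cr
import Pool.Agent.Q182.HB.Hor
import Pool.Agent.Q35.ST.Main
import Pool.Agent.Q35.HB.Stm

/-!
# Project HB (helper35): a general simple point over the generic point of a divisor (job GP)
-/

set_option autoImplicit false

namespace Pool.Agent.Q182.HB

open MvPolynomial Pool.Agent.Q35.ST Pool.Agent.Q35.HB

/-! ### Divisibility of polynomials -/

section dvd

variable {σ k : Type} [Field k]

theorem vars_subset_of_dvd {p q : MvPolynomial σ k} (h : p ∣ q) (hq : q ≠ 0) :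
    p.vars ⊆ q.vars := by
  obtain ⟨r, rfl⟩ := h
  have hp : p ≠ 0 := left_ne_zero_of_mul hq
  have hr : r ≠ 0 := right_ne_zero_of_mul hq
  intro t ht
  rw [mem_vars_iff_degreeOf_ne_zero] at ht ⊢
  rw [degreeOf_mul_eq hp hr]
  omega

theorem dvd_pderiv {p q : MvPolynomial σ k} (h : p ∣ q) {t : σ} (ht : t ∉ p.vars) :
    p ∣ pderiv t q := by
  obtain ⟨r, rfl⟩ := h
  rw [Derivation.leibniz, pderiv_eq_zero_of_notMem_vars ht, smul_zero, add_zero, smul_eq_mul]
  exact dvd_mul_right _ _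

theorem eq_zero_of_dvd {p q : MvPolynomial σ k} (h : p ∣ q) {t : σ} (ht : t ∈ p.vars)
    (ht' : t ∉ q.vars) : q = 0 := by
  by_contra hq
  exact ht' (vars_subset_of_dvd h hq ht)

theorem dvd_of_dvd_add_self [CharZero k] {p q : MvPolynomial σ k} (h : p ∣ q + q) : p ∣ q := by
  have h1 : q = C (2⁻¹ : k) * (q + q) := by
    have h2 : (C (2⁻¹ : k) : MvPolynomial σ k) * C 2 = 1 := by
      rw [← map_mul, inv_mul_cancel₀ two_ne_zero, map_one]
    have h3 : q + q = C (2 : k) * q := by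
      rw [map_ofNat, two_mul]
    rw [h3, ← mul_assoc, h2, one_mul]
  rw [h1]
  exact h.mul_left _

theorem pd_comm (a b : σ) (f : MvPolynomial σ k) :
    pderiv a (pderiv b f) = pderiv b (pderiv a f) := by
  classical
  have h : ⁅(pderiv a : Derivation k (MvPolynomial σ k) (MvPolynomial σ k)),
      (pderiv b : Derivation k (MvPolynomial σ k) (MvPolynomial σ k))⁆ = 0 := by
    refine MvPolynomial.derivation_ext fun t => ?_
    rw [Derivation.commutator_apply, pderiv_X, pderiv_X, Pi.single_apply, Pi.single_apply]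
    split_ifs <;> simp
  have h1 := congrArg
    (fun D : Derivation k (MvPolynomial σ k) (MvPolynomial σ k) => D f) h
  rw [Derivation.commutator_apply, Derivation.zero_apply, sub_eq_zero] at h1
  exact h1

theorem exists_var {π : MvPolynomial σ k} (hπ : Irreducible π) : ∃ t, t ∈ π.vars := by
  by_contra hcon
  push Not at hcon
  have h1 : π.vars = ∅ := Finset.eq_empty_of_forall_notMem hcon
  rw [vars_eq_empty_iff_eq_C] at h1
  have h2 : coeff 0 π ≠ 0 := by
    intro h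
    rw [h, map_zero] at h1
    exact hπ.ne_zero h1
  apply hπ.not_isUnit
  rw [h1]
  exact (isUnit_iff_ne_zero.2 h2).map C

/-- the generic point of a hypersurface -/
theorem exists_generic [CharZero k] (π : MvPolynomial σ k) (hπ : Irreducible π) :
    ∃ (Ω : Type) (_ : Field Ω) (_ : CharZero Ω) (_ : IsAlgClosed Ω) (_ : Algebra k Ω) (z : σ → Ω),
      ∀ f : MvPolynomial σ k, aeval z f = 0 ↔ π ∣ f := by
  have hp : (Ideal.span {π}).IsPrime := (Ideal.span_singleton_prime hπ.ne_zero).2 hπ.prime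
  let R := MvPolynomial σ k ⧸ Ideal.span {π}
  let L := FractionRing R
  let Ω := AlgebraicClosure L
  let φ : MvPolynomial σ k →ₐ[k] Ω := ((IsScalarTower.toAlgHom k L Ω).comp
    (IsScalarTower.toAlgHom k R L)).comp (Ideal.Quotient.mkₐ k (Ideal.span {π}))
  have : CharZero Ω := charZero_of_injective_algebraMap (algebraMap k Ω).injective
  refine ⟨Ω, inferInstance, inferInstance, inferInstance, inferInstance, fun t => φ (X t),
    fun f => ?_⟩
  have h1 : (aeval fun t => φ (X t) : MvPolynomial σ k →ₐ[k] Ω) = φ :=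
    MvPolynomial.algHom_ext fun t => aeval_X _ _
  rw [h1]
  have h2 : φ f = algebraMap L Ω (algebraMap R L (Ideal.Quotient.mk (Ideal.span {π}) f)) := rfl
  rw [h2, map_eq_zero_iff _ (algebraMap L Ω).injective,
    map_eq_zero_iff _ (IsFractionRing.injective R L), Ideal.Quotient.eq_zero_iff_mem,
    Ideal.mem_span_singleton]

end dvd

/-! ### The generic point -/

section gen

variable {σ k Ω : Type} [Field k] [Field Ω] [Algebra k Ω] {π : MvPolynomial σ k} {z : σ → Ω}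

/-- a family without the coordinate `t₀` is algebraically independent -/
theorem algInd_of_generic (hz : ∀ f : MvPolynomial σ k, aeval z f = 0 → π ∣ f) {t₀ : σ}
    (ht₀ : t₀ ∈ π.vars) (I : Finset σ) (hI : t₀ ∉ I) :
    AlgebraicIndependent k (fun t : I => z t) := by
  classical
  rw [algebraicIndependent_iff]
  intro p hp
  have h1 : aeval z (rename (Subtype.val : I → σ) p) = 0 := by
    rw [aeval_rename]
    exact hp
  have h2 : rename (Subtype.val : I → σ) p = 0 := by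
    refine eq_zero_of_dvd (hz _ h1) ht₀ fun h => ?_
    have h3 := vars_rename _ _ h
    rw [Finset.mem_image] at h3
    obtain ⟨s, _, hs⟩ := h3
    exact hI (hs ▸ s.2)
  exact rename_injective _ Subtype.val_injective (by rw [h2, map_zero])

theorem transc_of_generic [Fintype σ] [DecidableEq σ] (hπ : Irreducible π)
    (hz : ∀ f : MvPolynomial σ k, aeval z f = 0 ↔ π ∣ f) {i j : σ}
    (hi : i ∉ π.vars) (hj : j ∉ π.vars) : Transcendental (Lo k z i j) (z j) := by
  classical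
  obtain ⟨t₀, ht₀⟩ := exists_var hπ
  have h0i : t₀ ≠ i := fun h => hi (h ▸ ht₀)
  have h0j : t₀ ≠ j := fun h => hj (h ▸ ht₀)
  set S : Finset σ := ((Finset.univ.erase i).erase j).erase t₀ with hS
  have hSm : ∀ t, t ∈ S ↔ t ≠ t₀ ∧ t ≠ j ∧ t ≠ i := by
    intro t
    rw [hS, Finset.mem_erase, Finset.mem_erase, Finset.mem_erase]
    simp
  -- the coordinate `j`
  have hnj : z j ∉ cf k (z '' (S : Set σ)) := by
    intro h
    have hI := algInd_of_generic (fun f => (hz f).1) ht₀ (Finset.univ.erase t₀)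
      (Finset.notMem_erase _ _)
    have hj' : j ∈ (Finset.univ.erase t₀ : Finset σ) :=
      Finset.mem_erase.2 ⟨h0j.symm, Finset.mem_univ _⟩
    have h1 := hI.transcendental_adjoin
      (s := {t : (Finset.univ.erase t₀ : Finset σ) | (t : σ) ∈ S}) (i := ⟨j, hj'⟩) (by
        rw [Set.mem_ofPred_eq, hSm]
        exact fun h => h.2.1 rfl)
    apply h1
    rw [mem_cf] at h
    have h2 : (fun t : (Finset.univ.erase t₀ : Finset σ) => z t) ''
        {t : (Finset.univ.erase t₀ : Finset σ) | (t : σ) ∈ S} = z '' (S : Set σ) := by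
      ext x
      constructor
      · rintro ⟨t, ht, rfl⟩
        exact ⟨t, ht, rfl⟩
      · rintro ⟨t, ht, rfl⟩
        exact ⟨⟨t, Finset.mem_erase.2 ⟨((hSm t).1 ht).1, Finset.mem_univ _⟩⟩, ht, rfl⟩
    rw [h2]
    exact h
  -- the coordinate `t₀`
  have h0 : z t₀ ∈ cf k (z '' (S : Set σ)) := by
    by_contra hcon
    have hI : AlgebraicIndepOn k z (S : Set σ) :=
      algInd_of_generic (fun f => (hz f).1) ht₀ S (fun h => ((hSm _).1 h).1 rfl)
    have h1 : AlgebraicIndepOn k z (insert t₀ (S : Set σ)) := by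
      refine AlgebraicIndepOn.insert hI ?_
      rw [mem_cf] at hcon
      exact hcon
    rw [← Finset.coe_insert] at h1
    refine not_algInd_of_vars z (insert t₀ S) (f := π) (fun t ht => ?_) ((hz π).2 dvd_rfl)
      hπ.ne_zero h1
    rw [Finset.mem_insert, hSm]
    by_cases h2 : t = t₀
    · exact Or.inl h2
    · exact Or.inr ⟨h2, fun h => hj (h ▸ ht), fun h => hi (h ▸ ht)⟩
  intro h
  unfold Lo at h
  rw [IntermediateField.isAlgebraic_adjoin_iff] at h
  have h1 : z j ∈ cf k (z '' {t | t ≠ i ∧ t ≠ j}) := mem_cf.2 h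
  refine hnj (cf_le ?_ h1)
  rintro _ ⟨t, ht, rfl⟩
  by_cases h2 : t = t₀
  · rw [h2]
    exact h0
  · exact subset_cf _ ⟨t, (hSm t).2 ⟨h2, ht.2, ht.1⟩, rfl⟩

end gen

/-! ### Quadratic forms -/

/-- a simple zero on a line -/
theorem exists_line {Ω : Type} [Field Ω] [CharZero Ω] [IsAlgClosed Ω] {m : ℕ}
    (B : Fin m → Fin m → Ω) (hB : ∀ a b, B a b = B b a) (w : Fin m → Ω) (i : Fin m)
    (h : (∑ b, B i b * w b) ^ 2 - B i i * ∑ a, w a * ∑ b, B a b * w b ≠ 0) :
    ∃ v : Fin m → Ω, (∀ t, t ≠ i → v t = w t) ∧ ∑ a, v a * ∑ b, B a b * v b = 0 ∧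
      ∑ b, B i b * v b ≠ 0 := by
  classical
  have h1 : ∀ (x : Ω) (a : Fin m), ∑ b, B a b * (w b + if b = i then x else 0) =
      ∑ b, B a b * w b + B a i * x := by
    intro x a
    simp only [mul_add, Finset.sum_add_distrib, mul_ite, mul_zero, Finset.sum_ite_eq',
      Finset.mem_univ, if_true]
  have h2 : ∀ x : Ω, ∑ a, (w a + if a = i then x else 0) *
      ∑ b, B a b * (w b + if b = i then x else 0) =
      ∑ a, w a * ∑ b, B a b * w b + 2 * x * ∑ b, B i b * w b + x ^ 2 * B i i := by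
    intro x
    simp only [h1]
    have h3 : ∀ a, (w a + if a = i then x else 0) * (∑ b, B a b * w b + B a i * x) =
        w a * ∑ b, B a b * w b + (B i a * w a) * x +
          if a = i then x * (∑ b, B a b * w b + B a i * x) else 0 := by
      intro a
      rw [hB i a]
      split_ifs <;> ring
    rw [Finset.sum_congr rfl fun a _ => h3 a, Finset.sum_add_distrib, Finset.sum_add_distrib,
      ← Finset.sum_mul, Finset.sum_ite_eq' Finset.univ i fun a =>
        x * (∑ b, B a b * w b + B a i * x), if_pos (Finset.mem_univ _)]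
    ring
  set Li := ∑ b, B i b * w b with hLi
  set Q := ∑ a, w a * ∑ b, B a b * w b with hQ
  by_cases hii : B i i = 0
  · have hL : Li ≠ 0 := by
      intro h3
      apply h
      rw [h3, hii]
      ring
    refine ⟨fun b => w b + if b = i then -Q / (2 * Li) else 0, fun t ht => ?_, ?_, ?_⟩
    · show w t + (if t = i then _ else 0) = w t
      rw [if_neg ht, add_zero]
    · rw [h2, hii]
      field_simp
      ring
    · rw [h1, hii, zero_mul, add_zero]
      exact hL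
  · obtain ⟨s, hs⟩ := IsAlgClosed.exists_pow_nat_eq (Li ^ 2 - B i i * Q) (n := 2) (by norm_num)
    have hs0 : s ≠ 0 := by
      rintro rfl
      apply h
      rw [← hs]
      ring
    refine ⟨fun b => w b + if b = i then (s - Li) / B i i else 0, fun t ht => ?_, ?_, ?_⟩
    · show w t + (if t = i then _ else 0) = w t
      rw [if_neg ht, add_zero]
    · rw [h2]
      have h3 : B i i * (Q + 2 * ((s - Li) / B i i) * Li + ((s - Li) / B i i) ^ 2 * B i i) = 0 := by
        have h4 : B i i * (Q + 2 * ((s - Li) / B i i) * Li + ((s - Li) / B i i) ^ 2 * B i i) =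
            B i i * Q + s ^ 2 - Li ^ 2 := by
          field_simp
          ring
        rw [h4, hs]
        ring
      exact (mul_eq_zero.1 h3).resolve_left hii
    · rw [h1]
      have h3 : Li + B i i * ((s - Li) / B i i) = s := by
        field_simp
        ring
      rw [h3]
      exact hs0

/-! ### The hypersurface -/

section hyp

variable {κ : Type} [DecidableEq κ] {n : κ → ℕ} {k : Type} [Field k]

theorem pd3 {F : MvPolynomial (Pc n) k} (hF : MH Set.univ (fun _ => 2) F) (l : κ)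
    (a b c : Fin (n l + 1)) :
    pderiv (⟨l, c⟩ : Pc n) (pderiv (⟨l, b⟩ : Pc n) (pderiv (⟨l, a⟩ : Pc n) F)) = 0 := by
  have h1 : MH Set.univ _ (pderiv (⟨l, b⟩ : Pc n) (pderiv (⟨l, a⟩ : Pc n) F)) :=
    (hF.pderiv (⟨l, a⟩ : Pc n)).pderiv (⟨l, b⟩ : Pc n)
  have h2 := vars_of_zero h1 (l := l) (by simp)
  exact pderiv_eq_zero_of_notMem_vars fun h => h2 _ h rfl

theorem dvd_minor [CharZero k] {F : MvPolynomial (Pc n) k} (hF : MH Set.univ (fun _ => 2) F) (l : κ)
    (a b c : Fin (n l + 1)) {π : MvPolynomial (Pc n) k}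
    (h : π ∣ pderiv (⟨l, a⟩ : Pc n) F ^ 2 - (pderiv (⟨l, a⟩ : Pc n) (pderiv (⟨l, a⟩ : Pc n) F) * F +
      pderiv (⟨l, a⟩ : Pc n) (pderiv (⟨l, a⟩ : Pc n) F) * F))
    (hb : (⟨l, b⟩ : Pc n) ∉ π.vars) (hc : (⟨l, c⟩ : Pc n) ∉ π.vars) :
    π ∣ pderiv (⟨l, a⟩ : Pc n) (pderiv (⟨l, b⟩ : Pc n) F) *
      pderiv (⟨l, a⟩ : Pc n) (pderiv (⟨l, c⟩ : Pc n) F) -
      pderiv (⟨l, a⟩ : Pc n) (pderiv (⟨l, a⟩ : Pc n) F) *
      pderiv (⟨l, b⟩ : Pc n) (pderiv (⟨l, c⟩ : Pc n) F) := by
  have h1 := dvd_pderiv h hb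
  have h2 : pderiv (⟨l, b⟩ : Pc n) (pderiv (⟨l, a⟩ : Pc n) F ^ 2 -
      (pderiv (⟨l, a⟩ : Pc n) (pderiv (⟨l, a⟩ : Pc n) F) * F +
      pderiv (⟨l, a⟩ : Pc n) (pderiv (⟨l, a⟩ : Pc n) F) * F)) =
      (pderiv (⟨l, a⟩ : Pc n) F * pderiv (⟨l, a⟩ : Pc n) (pderiv (⟨l, b⟩ : Pc n) F) -
        pderiv (⟨l, a⟩ : Pc n) (pderiv (⟨l, a⟩ : Pc n) F) * pderiv (⟨l, b⟩ : Pc n) F) +
      (pderiv (⟨l, a⟩ : Pc n) F * pderiv (⟨l, a⟩ : Pc n) (pderiv (⟨l, b⟩ : Pc n) F) -
        pderiv (⟨l, a⟩ : Pc n) (pderiv (⟨l, a⟩ : Pc n) F) * pderiv (⟨l, b⟩ : Pc n) F) := by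
    rw [pow_two, map_sub, map_add, pderiv_mul, pderiv_mul, pd3 hF,
      pd_comm (⟨l, b⟩ : Pc n) ⟨l, a⟩ F]
    ring
  rw [h2] at h1
  have h3 := dvd_pderiv (dvd_of_dvd_add_self h1) hc
  rw [map_sub, pderiv_mul, pderiv_mul, pd3 hF, pd3 hF, pd_comm (⟨l, c⟩ : Pc n) ⟨l, a⟩ F,
    pd_comm (⟨l, c⟩ : Pc n) ⟨l, b⟩ F, mul_zero, zero_mul, add_zero, zero_add] at h3
  rwa [mul_comm (pderiv (⟨l, a⟩ : Pc n) (pderiv (⟨l, b⟩ : Pc n) F))]

variable {Ω : Type} [Field Ω] [Algebra k Ω]

/-- the second derivatives at the point -/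
noncomputable def BB (F : MvPolynomial (Pc n) k) (z : Pc n → Ω) (l : κ) (a b : Fin (n l + 1)) : Ω :=
  aeval z (pderiv (⟨l, a⟩ : Pc n) (pderiv (⟨l, b⟩ : Pc n) F))

omit [DecidableEq κ] in
theorem BB_symm (F : MvPolynomial (Pc n) k) (z : Pc n → Ω) (l : κ) (a b : Fin (n l + 1)) :
    BB F z l a b = BB F z l b a := by
  unfold BB
  rw [pd_comm]

theorem aeval_pd {F : MvPolynomial (Pc n) k} (hF : MH Set.univ (fun _ => 2) F) (z : Pc n → Ω)
    (l : κ) (a : Fin (n l + 1)) (v : Fin (n l + 1) → Ω) :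
    aeval (upd z l v) (pderiv (⟨l, a⟩ : Pc n) F) = ∑ b, BB F z l a b * v b := by
  rw [aeval_upd_of_one (hF.pderiv (⟨l, a⟩ : Pc n)) (by simp)]
  refine Finset.sum_congr rfl fun b _ => ?_
  rw [BB_symm]
  rfl

theorem aeval_F {F : MvPolynomial (Pc n) k} (hF : MH Set.univ (fun _ => 2) F) (z : Pc n → Ω)
    (l : κ) (v : Fin (n l + 1) → Ω) :
    ∑ a, v a * ∑ b, BB F z l a b * v b = aeval (upd z l v) F + aeval (upd z l v) F := by
  have h1 := hF.EU (Set.mem_univ l)
  unfold EU at h1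
  have h2 := congrArg (aeval (upd z l v)) h1
  rw [map_sum, map_mul] at h2
  have h3 : (aeval (upd z l v)) (C ((2 : ℕ) : k) : MvPolynomial (Pc n) k) = 2 := by
    rw [Nat.cast_ofNat, map_ofNat, map_ofNat]
  rw [h3, two_mul] at h2
  rw [← h2]
  refine Finset.sum_congr rfl fun a _ => ?_
  rw [map_mul, aeval_X, aeval_pd hF]
  congr 1
  unfold upd
  rw [Function.update_self]

/-- a simple point over the generic point of the divisor -/
theorem gp_half [Fintype κ] [CharZero Ω] [IsAlgClosed Ω] {F : MvPolynomial (Pc n) k}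
    (hF : MH Set.univ (fun _ => 2) F) {π : MvPolynomial (Pc n) k} (hπ : Irreducible π)
    {z : Pc n → Ω} (hz : ∀ f : MvPolynomial (Pc n) k, aeval z f = 0 ↔ π ∣ f) {l : κ}
    {i j : Fin (n l + 1)} (hij : i ≠ j) (hi : (⟨l, i⟩ : Pc n) ∉ π.vars)
    (hj : (⟨l, j⟩ : Pc n) ∉ π.vars)
    (h : aeval z (pderiv (⟨l, i⟩ : Pc n) F ^ 2 -
      (pderiv (⟨l, i⟩ : Pc n) (pderiv (⟨l, i⟩ : Pc n) F) * F +
      pderiv (⟨l, i⟩ : Pc n) (pderiv (⟨l, i⟩ : Pc n) F) * F)) ≠ 0) :
    ∃ ξ : Pc n → Ω, aeval ξ π = 0 ∧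
      (∀ f : MvPolynomial (Pc n) k, (⟨l, i⟩ : Pc n) ∉ f.vars → (⟨l, j⟩ : Pc n) ∉ f.vars →
        aeval ξ f = 0 → π ∣ f) ∧ aeval ξ F = 0 ∧ aeval ξ (pderiv (⟨l, i⟩ : Pc n) F) ≠ 0 ∧
      Transcendental (Lo k ξ (⟨l, i⟩ : Pc n) ⟨l, j⟩) (ξ ⟨l, j⟩) := by
  classical
  have hself : upd z l (fun a => z ⟨l, a⟩) = z := upd_self z l
  have h1 : (∑ b, BB F z l i b * z ⟨l, b⟩) ^ 2 - BB F z l i i *
      ∑ a, z ⟨l, a⟩ * ∑ b, BB F z l a b * z ⟨l, b⟩ ≠ 0 := by
    intro h2
    apply h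
    have h3 := aeval_F hF z l (fun a => z ⟨l, a⟩)
    have h4 := aeval_pd hF z l i (fun a => z ⟨l, a⟩)
    rw [hself] at h3 h4
    rw [h3, ← h4] at h2
    rw [map_sub, map_add, map_mul, map_pow, ← mul_add]
    exact h2
  obtain ⟨v, hv1, hv2, hv3⟩ := exists_line (BB F z l) (BB_symm F z l) (fun b => z ⟨l, b⟩) i h1
  have hξ : ∀ t, t ≠ (⟨l, i⟩ : Pc n) → upd z l v t = z t := by
    rintro ⟨l', b⟩ ht
    unfold upd
    by_cases h2 : l' = l
    · subst h2
      simp only [Function.update_self]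
      exact hv1 b fun h3 => ht (by rw [h3])
    · simp only
      rw [Function.update_of_ne h2]
  have hcongr : ∀ f : MvPolynomial (Pc n) k, (⟨l, i⟩ : Pc n) ∉ f.vars →
      aeval (upd z l v) f = aeval z f := by
    intro f hf
    refine eval₂Hom_congr' rfl (fun t ht _ => ?_) rfl
    exact hξ t fun h2 => hf (h2 ▸ ht)
  have hne : (⟨l, j⟩ : Pc n) ≠ ⟨l, i⟩ := by
    intro h2
    apply hij
    have h3 : j = i := by simpa using h2
    exact h3.symm
  refine ⟨upd z l v, ?_, ?_, ?_, ?_, ?_⟩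
  · rw [hcongr π hi]
    exact (hz π).2 dvd_rfl
  · intro f hf _ hf0
    rw [hcongr f hf] at hf0
    exact (hz f).1 hf0
  · rw [aeval_F hF, ← two_mul] at hv2
    exact (mul_eq_zero.1 hv2).resolve_left two_ne_zero
  · rw [aeval_pd hF]
    exact hv3
  · rw [hξ _ hne]
    have hLo : Lo k (upd z l v) (⟨l, i⟩ : Pc n) ⟨l, j⟩ = Lo k z (⟨l, i⟩ : Pc n) ⟨l, j⟩ := by
      unfold Lo
      congr 1
      refine Set.image_congr fun t ht => ?_
      exact hξ t ht.1
    rw [hLo]
    exact transc_of_generic hπ hz hi hj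

end hyp

/-! ### The radical -/

theorem rank_one_case {Ω : Type} [Field Ω] {m : ℕ} (B : Fin m → Fin m → Ω) (i : Fin m)
    (hii : B i i ≠ 0) (hR : ∀ a b, B i a * B i b = B i i * B a b) :
    m ≤ Module.finrank Ω (LinearMap.ker (Matrix.of B).mulVecLin) + 1 := by
  let φ : (Fin m → Ω) →ₗ[Ω] Ω := (LinearMap.proj i).comp (Matrix.of B).mulVecLin
  have h1 := LinearMap.finrank_range_add_finrank_ker φ
  rw [Module.finrank_fin_fun] at h1
  have h2 : Module.finrank Ω (LinearMap.range φ) ≤ 1 := by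
    refine (Submodule.finrank_le _).trans ?_
    rw [Module.finrank_self]
  have h3 : LinearMap.ker φ ≤ LinearMap.ker (Matrix.of B).mulVecLin := by
    intro v hv
    rw [LinearMap.mem_ker] at hv ⊢
    have hv' : ∑ b, B i b * v b = 0 := hv
    funext a
    show ∑ b, B a b * v b = 0
    have h4 : B i i * ∑ b, B a b * v b = 0 := by
      have h5 : B i i * ∑ b, B a b * v b = B i a * ∑ b, B i b * v b := by
        rw [Finset.mul_sum, Finset.mul_sum]
        refine Finset.sum_congr rfl fun b _ => ?_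
        rw [← mul_assoc, ← mul_assoc, hR]
      rw [h5, hv', mul_zero]
    exact (mul_eq_zero.1 h4).resolve_left hii
  have h4 := Submodule.finrank_mono h3
  omega

theorem zero_case {Ω : Type} [Field Ω] {m : ℕ} (B : Fin m → Fin m → Ω) (i j : Fin m) (hij : i ≠ j)
    (hi : ∀ a, B a i = 0) (hj : ∀ a, B a j = 0) :
    2 ≤ Module.finrank Ω (LinearMap.ker (Matrix.of B).mulVecLin) := by
  classical
  have h1 : ∀ c : Fin m, (∀ a, B a c = 0) →
      (Pi.single c 1 : Fin m → Ω) ∈ LinearMap.ker (Matrix.of B).mulVecLin := by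
    intro c hc
    rw [LinearMap.mem_ker]
    funext a
    show ∑ b, B a b * (Pi.single c 1 : Fin m → Ω) b = 0
    rw [Finset.sum_eq_single c]
    · rw [hc, zero_mul]
    · intro b _ hb
      rw [Pi.single_eq_of_ne hb, mul_zero]
    · intro h
      exact absurd (Finset.mem_univ _) h
  let ψ : (Fin 2 → Ω) →ₗ[Ω] LinearMap.ker (Matrix.of B).mulVecLin :=
    (LinearMap.proj 0).smulRight ⟨_, h1 i hi⟩ + (LinearMap.proj 1).smulRight ⟨_, h1 j hj⟩
  have h2 : Function.Injective ψ := by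
    rw [← LinearMap.ker_eq_bot, LinearMap.ker_eq_bot']
    intro c hc
    have h3 : ∀ b, c 0 * (Pi.single i 1 : Fin m → Ω) b + c 1 * (Pi.single j 1 : Fin m → Ω) b = 0 :=
      fun b => congrFun (congrArg Subtype.val hc) b
    have h4 := h3 i
    have h5 := h3 j
    rw [Pi.single_eq_same, Pi.single_eq_of_ne hij, mul_one, mul_zero, add_zero] at h4
    rw [Pi.single_eq_same, Pi.single_eq_of_ne hij.symm, mul_one, mul_zero, zero_add] at h5
    funext s
    fin_cases s
    · exact h4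
    · exact h5
  have h3 := LinearMap.finrank_le_finrank_of_injective h2
  rw [Module.finrank_fin_fun] at h3
  exact h3

theorem gp (hR : S_RAD) : S_GP := by
  classical
  intro κ _ _ n k _ _ F hF hn hsm l i j hij hhm π hπ hi hj
  obtain ⟨Ω, _, _, _, _, z, hz⟩ := exists_generic π hπ
  by_cases h1 : aeval z (pderiv (⟨l, i⟩ : Pc n) F ^ 2 -
      (pderiv (⟨l, i⟩ : Pc n) (pderiv (⟨l, i⟩ : Pc n) F) * F +
      pderiv (⟨l, i⟩ : Pc n) (pderiv (⟨l, i⟩ : Pc n) F) * F)) = 0
  swap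
  · obtain ⟨ξ, hξ1, hξ2, hξ3, hξ4, hξ5⟩ := gp_half hF hπ hz hij hi hj h1
    exact ⟨Ω, _, inferInstance, inferInstance, _, ξ, hξ1, hξ2, hξ3, Or.inl ⟨hξ4, hξ5⟩⟩
  by_cases h2 : aeval z (pderiv (⟨l, j⟩ : Pc n) F ^ 2 -
      (pderiv (⟨l, j⟩ : Pc n) (pderiv (⟨l, j⟩ : Pc n) F) * F +
      pderiv (⟨l, j⟩ : Pc n) (pderiv (⟨l, j⟩ : Pc n) F) * F)) = 0
  swap
  · obtain ⟨ξ, hξ1, hξ2, hξ3, hξ4, hξ5⟩ := gp_half hF hπ hz hij.symm hj hi h2
    refine ⟨Ω, _, inferInstance, inferInstance, _, ξ, hξ1, fun f hf1 hf2 => hξ2 f hf2 hf1, hξ3,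
      Or.inr ⟨hξ4, ?_⟩⟩
    have hLo : Lo k ξ (⟨l, i⟩ : Pc n) ⟨l, j⟩ = Lo k ξ (⟨l, j⟩ : Pc n) ⟨l, i⟩ := by
      unfold Lo
      congr 2
      ext t
      exact and_comm
    rw [hLo]
    exact hξ5
  exfalso
  rw [hz] at h1 h2
  -- the divisor does not involve the block
  have hdm := dvd_minor hF l i j j h1 hj hj
  have hvars : ∀ t ∈ π.vars, t.1 ≠ l := by
    intro t ht hl
    have h3 : hm F (⟨l, i⟩ : Pc n) ⟨l, j⟩ = pderiv (⟨l, i⟩ : Pc n) (pderiv (⟨l, j⟩ : Pc n) F) *
        pderiv (⟨l, i⟩ : Pc n) (pderiv (⟨l, j⟩ : Pc n) F) -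
        pderiv (⟨l, i⟩ : Pc n) (pderiv (⟨l, i⟩ : Pc n) F) *
        pderiv (⟨l, j⟩ : Pc n) (pderiv (⟨l, j⟩ : Pc n) F) := by
      unfold hm
      rw [pow_two]
    have h4 := vars_subset_of_dvd (h3 ▸ hdm) hhm ht
    have hv : ∀ a b : Fin (n l + 1), t ∉ (pderiv (⟨l, a⟩ : Pc n) (pderiv (⟨l, b⟩ : Pc n) F)).vars := by
      intro a b h5
      exact vars_of_zero ((hF.pderiv (⟨l, b⟩ : Pc n)).pderiv (⟨l, a⟩ : Pc n)) (l := l) (by simp) t h5 hl
    rw [h3] at h4
    have h5 := vars_sub_subset _ h4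
    rw [Finset.mem_union] at h5
    rcases h5 with h5 | h5
    · have h6 := vars_mul _ _ h5
      rw [Finset.mem_union] at h6
      rcases h6 with h6 | h6
      · exact hv _ _ h6
      · exact hv _ _ h6
    · have h6 := vars_mul _ _ h5
      rw [Finset.mem_union] at h6
      rcases h6 with h6 | h6
      · exact hv _ _ h6
      · exact hv _ _ h6
  have hblk : ∀ a : Fin (n l + 1), (⟨l, a⟩ : Pc n) ∉ π.vars := fun a h => hvars _ h rfl
  have hRi : ∀ a b, BB F z l i a * BB F z l i b = BB F z l i i * BB F z l a b := by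
    intro a b
    have h3 := (hz _).2 (dvd_minor hF l i a b h1 (hblk a) (hblk b))
    rw [map_sub, map_mul, map_mul, sub_eq_zero] at h3
    exact h3
  have hRj : ∀ a b, BB F z l j a * BB F z l j b = BB F z l j j * BB F z l a b := by
    intro a b
    have h3 := (hz _).2 (dvd_minor hF l j a b h2 (hblk a) (hblk b))
    rw [map_sub, map_mul, map_mul, sub_eq_zero] at h3
    exact h3
  -- the radical
  obtain ⟨t₀, ht₀⟩ := exists_var hπ
  have hbig : 2 ≤ Module.finrank Ω (LinearMap.ker (Matrix.of (BB F z l)).mulVecLin) := by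
    have hnl := hn l
    by_cases h3 : BB F z l i i = 0
    · by_cases h4 : BB F z l j j = 0
      · refine zero_case (BB F z l) i j hij (fun a => ?_) (fun a => ?_)
        · have h5 := hRi a a
          rw [h3, zero_mul, mul_self_eq_zero] at h5
          rw [BB_symm, h5]
        · have h5 := hRj a a
          rw [h4, zero_mul, mul_self_eq_zero] at h5
          rw [BB_symm, h5]
      · have h5 := rank_one_case (BB F z l) j h4 hRj
        omega
    · have h5 := rank_one_case (BB F z l) i h3 hRi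
      omega
  set I : Finset (Pc n) := (Finset.univ.filter fun t : Pc n => t.1 ≠ l).erase t₀ with hI
  have hnz : ∀ m, m ≠ l → ∃ a, z ⟨m, a⟩ ≠ 0 := by
    intro m _
    by_contra hcon
    push Not at hcon
    have hX : ∀ a : Fin (n m + 1), π ∣ X (⟨m, a⟩ : Pc n) := by
      intro a
      rw [← hz, aeval_X]
      exact hcon a
    have hnm := hn m
    have h3 : (⟨m, ⟨0, by omega⟩⟩ : Pc n) ≠ ⟨m, ⟨1, by omega⟩⟩ := by
      intro h
      simp at h
    have h4 : Associated π (X (⟨m, ⟨0, by omega⟩⟩ : Pc n)) :=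
      hπ.associated_of_dvd (MvPolynomial.X_prime).irreducible (hX _)
    have h5 := h4.symm.dvd.trans (hX ⟨1, by omega⟩)
    rw [X_dvd_X] at h5
    exact h3 h5
  have hrad := hR κ n k Ω F hF (smth_ext hsm _) l z hnz I (fun t ht => by
    rw [hI, Finset.mem_erase, Finset.mem_filter] at ht
    exact ht.2.2) (algInd_of_generic (fun f => (hz f).1) ht₀ I (Finset.notMem_erase _ _))
    (LinearMap.ker (Matrix.of (BB F z l)).mulVecLin) (fun v hv a => by
      rw [aeval_pd hF]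
      exact congrFun (LinearMap.mem_ker.1 hv) a)
  -- counting
  have hc1 : I.card + 1 = (Finset.univ.filter fun t : Pc n => t.1 ≠ l).card := by
    rw [hI]
    exact Finset.card_erase_add_one (by
      rw [Finset.mem_filter]
      exact ⟨Finset.mem_univ _, hvars t₀ ht₀⟩)
  have hc2 := Finset.card_filter_add_card_filter_not (s := (Finset.univ : Finset (Pc n)))
    (fun t : Pc n => t.1 ≠ l)
  have hc3 : (Finset.univ.filter fun t : Pc n => ¬ t.1 ≠ l).card ≤ n l + 1 := by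
    have h3 : (Finset.univ.filter fun t : Pc n => ¬ t.1 ≠ l) ⊆
        Finset.univ.image fun a : Fin (n l + 1) => (⟨l, a⟩ : Pc n) := by
      rintro ⟨m, a⟩ ht
      rw [Finset.mem_filter, not_not] at ht
      have h4 : m = l := ht.2
      subst h4
      exact Finset.mem_image_of_mem _ (Finset.mem_univ _)
    refine (Finset.card_le_card h3).trans (Finset.card_image_le.trans ?_)
    rw [Finset.card_univ, Fintype.card_fin]
  rw [Finset.card_univ] at hc2
  omega

end Pool.Agent.Q182.HB
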