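import Pool.Agent.Q218.HB.Stm

/-!
# Project HB, job MONO

`η Im G(x,x; E + i η)` is nondecreasing in `η`.
-/

set_option autoImplicit false

open MeasureTheory Matrix

namespace Pool.Agent.Q182.HB

open Pool.Agent.Q218.HB

set_option linter.unusedSectionVars false

variable {Λ : Type} [Fintype Λ] [DecidableEq Λ]

lemma conj_Hm (h : Λ → Λ → ℝ) (V : Λ → ℝ) (x y : Λ) :
    (starRingEnd ℂ) (Hm h V x y) = Hm h V x y := by
  unfold Hm
  split_ifs with hxy
  · simp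
  · simp

lemma symm_Hm (h : Λ → Λ → ℝ) (V : Λ → ℝ) (hs : ∀ x y, h x y = h y x) (x y : Λ) :
    Hm h V x y = Hm h V y x := by
  unfold Hm
  rw [hs x y]
  by_cases hxy : x = y
  · subst hxy; rfl
  · rw [if_neg hxy, if_neg (fun h' => hxy h'.symm)]

lemma im_zero (h : Λ → Λ → ℝ) (V : Λ → ℝ) (hs : ∀ x y, h x y = h y x) (w : Λ → ℂ) :
    (∑ x, (starRingEnd ℂ) ((Hm h V *ᵥ w) x) * w x).im = 0 := by
  rw [← Complex.conj_eq_iff_im, map_sum]
  have h1 : ∀ x, (starRingEnd ℂ) ((starRingEnd ℂ) ((Hm h V *ᵥ w) x) * w x) =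
      ∑ y, Hm h V x y * w y * (starRingEnd ℂ) (w x) := by
    intro x
    rw [map_mul, Complex.conj_conj, Matrix.mulVec, dotProduct, Finset.sum_mul]
  have h2 : ∀ x, (starRingEnd ℂ) ((Hm h V *ᵥ w) x) * w x =
      ∑ y, Hm h V y x * (starRingEnd ℂ) (w y) * w x := by
    intro x
    rw [Matrix.mulVec, dotProduct, map_sum, Finset.sum_mul]
    refine Finset.sum_congr rfl fun y _ => ?_
    rw [map_mul, conj_Hm, symm_Hm h V hs x y]
  rw [Finset.sum_congr rfl fun x _ => h1 x, Finset.sum_congr rfl fun x _ => h2 x,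
    Finset.sum_comm]
  refine Finset.sum_congr rfl fun x _ => Finset.sum_congr rfl fun y _ => ?_
  ring

lemma norm_id (b w : ℂ) (η : ℝ) :
    ‖b - (η : ℂ) * Complex.I * w‖ ^ 2 =
      ‖b‖ ^ 2 + η ^ 2 * ‖w‖ ^ 2 + 2 * η * ((starRingEnd ℂ) b * w).im := by
  rw [← Complex.normSq_eq_norm_sq, ← Complex.normSq_eq_norm_sq, ← Complex.normSq_eq_norm_sq,
    Complex.normSq_apply, Complex.normSq_apply, Complex.normSq_apply]
  simp only [Complex.sub_re, Complex.sub_im, Complex.mul_re, Complex.mul_im, Complex.ofReal_re,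
    Complex.ofReal_im, Complex.I_re, Complex.I_im, Complex.conj_re, Complex.conj_im]
  ring

/-- `‖(H - E - i η) w‖² = ‖(H - E) w‖² + η² ‖w‖²` -/
lemma sum_id (h : Λ → Λ → ℝ) (V : Λ → ℝ) (hs : ∀ x y, h x y = h y x) (E η : ℝ) (w : Λ → ℂ) :
    ∑ x, ‖(Hm h V *ᵥ w) x - pt E η * w x‖ ^ 2 =
      ∑ x, ‖(Hm h V *ᵥ w) x - (E : ℂ) * w x‖ ^ 2 + η ^ 2 * ∑ x, ‖w x‖ ^ 2 := by
  have h0 : ∀ x, ‖(Hm h V *ᵥ w) x - pt E η * w x‖ ^ 2 =
      ‖(Hm h V *ᵥ w) x - (E : ℂ) * w x‖ ^ 2 + η ^ 2 * ‖w x‖ ^ 2 +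
        2 * η * ((starRingEnd ℂ) ((Hm h V *ᵥ w) x - (E : ℂ) * w x) * w x).im := by
    intro x
    rw [← norm_id]
    congr 2
    unfold pt
    ring
  simp only [h0]
  rw [Finset.sum_add_distrib, Finset.sum_add_distrib, ← Finset.mul_sum, ← Finset.mul_sum,
    ← Complex.im_sum]
  have h1 : ∀ x, (starRingEnd ℂ) ((Hm h V *ᵥ w) x - (E : ℂ) * w x) * w x =
      (starRingEnd ℂ) ((Hm h V *ᵥ w) x) * w x - ((E * ‖w x‖ ^ 2 : ℝ) : ℂ) := by
    intro x
    rw [map_sub, sub_mul, map_mul, Complex.conj_ofReal, mul_assoc, Complex.conj_mul']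
    push_cast
    ring
  simp only [h1]
  rw [Finset.sum_sub_distrib, Complex.sub_im, im_zero h V hs w, ← Complex.ofReal_sum,
    Complex.ofReal_im]
  ring

theorem mono : S_INV → S_WARD → S_MONO := by
  intro inv ward Λ _ _ h V E η η' hs hη' hηη x
  have hη : 0 < η := lt_of_lt_of_le hη' hηη
  have him : (pt E η).im = η := by simp [pt]
  have him' : (pt E η').im = η' := by simp [pt]
  obtain ⟨i1, i2, i3⟩ := inv Λ h V (pt E η) hs (by rw [him]; exact hη.ne')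
  obtain ⟨j1, j2, j3⟩ := inv Λ h V (pt E η') hs (by rw [him']; exact hη'.ne')
  set A := Hm h V with hA
  set u : Λ → ℂ := fun y => G h V (pt E η) y x with hu
  set u' : Λ → ℂ := fun y => G h V (pt E η') y x with hu'
  set w : Λ → ℂ := fun y => (G h V (pt E η') * G h V (pt E η)) y x with hw
  have key : ∀ (M : Matrix Λ Λ ℂ) (z : ℂ) (y : Λ), ((A - z • (1 : Matrix Λ Λ ℂ)) * M) y x =
      (A *ᵥ fun y => M y x) y - z * M y x := by
    intro M z y
    rw [Matrix.sub_mul, Matrix.smul_mul, Matrix.one_mul, Matrix.sub_apply, Matrix.smul_apply,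
      smul_eq_mul, Matrix.mul_apply]
    rfl
  -- `(A - z') w = u`
  have e1 : ∀ y, (A *ᵥ w) y - pt E η' * w y = u y := by
    intro y
    have := key (G h V (pt E η') * G h V (pt E η)) (pt E η') y
    rw [← Matrix.mul_assoc, j1, Matrix.one_mul] at this
    exact this.symm
  -- `(A - z) w = u'`
  have e2 : ∀ y, (A *ᵥ w) y - pt E η * w y = u' y := by
    intro y
    have := key (G h V (pt E η') * G h V (pt E η)) (pt E η) y
    have hc : (A - pt E η • (1 : Matrix Λ Λ ℂ)) * G h V (pt E η') =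
        G h V (pt E η') * (A - pt E η • (1 : Matrix Λ Λ ℂ)) := by
      have e3 : A - pt E η • (1 : Matrix Λ Λ ℂ) =
          (A - pt E η' • (1 : Matrix Λ Λ ℂ)) + (pt E η' - pt E η) • (1 : Matrix Λ Λ ℂ) := by
        rw [sub_smul]; abel
      rw [e3, Matrix.add_mul, Matrix.mul_add, j1, j2, Matrix.smul_mul, Matrix.mul_smul,
        Matrix.one_mul, Matrix.mul_one]
    rw [← Matrix.mul_assoc, hc, Matrix.mul_assoc, i1, Matrix.mul_one] at this
    exact this.symm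
  have s1 := sum_id h V hs E η w
  have s2 := sum_id h V hs E η' w
  rw [← hA] at s1 s2
  simp only [e2] at s1
  simp only [e1] at s2
  have w1 := ward Λ h V (pt E η) hs (by rw [him]; exact hη) x
  have w2 := ward Λ h V (pt E η') hs (by rw [him']; exact hη') x
  rw [him] at w1
  rw [him'] at w2
  have c1 : ∑ y, ‖G h V (pt E η) x y‖ ^ 2 = ∑ y, ‖u y‖ ^ 2 :=
    Finset.sum_congr rfl fun y _ => by rw [i3 x y]
  have c2 : ∑ y, ‖G h V (pt E η') x y‖ ^ 2 = ∑ y, ‖u' y‖ ^ 2 :=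
    Finset.sum_congr rfl fun y _ => by rw [j3 x y]
  rw [c1, s2] at w1
  rw [c2, s1] at w2
  set B := ∑ x, ‖(A *ᵥ w) x - (E : ℂ) * w x‖ ^ 2 with hB
  set W := ∑ x, ‖w x‖ ^ 2 with hW
  have hB0 : 0 ≤ B := Finset.sum_nonneg fun _ _ => by positivity
  have g1 : (G h V (pt E η) x x).im = (B + η' ^ 2 * W) * η := by
    rw [w1]; field_simp
  have g2 : (G h V (pt E η') x x).im = (B + η ^ 2 * W) * η' := by
    rw [w2]; field_simp
  rw [g1, g2]
  have h3 : η' ^ 2 ≤ η ^ 2 := by nlinarith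
  nlinarith [mul_le_mul_of_nonneg_right h3 hB0]

end Pool.Agent.Q182.HB
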