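import Pool.Agent.Q182.HB.Gp

/-!
# Project HB (helper35): the place over the generic point of a divisor (job PL)
-/

set_option autoImplicit false

namespace Pool.Agent.Q182.HB

open MvPolynomial Pool.Agent.Q35.ST Pool.Agent.Q35.HB Pool.Agent.Helper165.P1

theorem ps_injective (Ω : Type) [Field Ω] : Function.Injective (ps Ω) := by
  unfold ps
  rw [RingHom.coe_comp]
  exact (eP (E := Ω) 1 one_pos).injective.comp HahnSeries.ofPowerSeries_injective

/-- the coordinates outside two coordinates: quotients of polynomials -/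
theorem mem_Lo {ι k K : Type} [Field k] [Field K] [Algebra k K] (x : ι → K) (i j : ι) {y : K}
    (hy : y ∈ Lo k x i j) : ∃ r s : MvPolynomial ι k, i ∉ s.vars ∧ j ∉ s.vars ∧
      y = aeval x r / aeval x s := by
  classical
  have h1 : x '' {t | t ≠ i ∧ t ≠ j} = Set.range (fun t : {t : ι // t ≠ i ∧ t ≠ j} => x t) := by
    ext z
    constructor
    · rintro ⟨t, ht, rfl⟩
      exact ⟨⟨t, ht⟩, rfl⟩
    · rintro ⟨t, rfl⟩
      exact ⟨t, t.2, rfl⟩
  unfold Lo at hy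
  rw [h1, IntermediateField.mem_adjoin_range_iff] at hy
  obtain ⟨r, s, rfl⟩ := hy
  have h2 : ∀ t, (t = i ∨ t = j) → t ∉ (rename (Subtype.val : {t : ι // t ≠ i ∧ t ≠ j} → ι) s).vars := by
    intro t ht h
    have h3 := vars_rename _ _ h
    rw [Finset.mem_image] at h3
    obtain ⟨u, _, hu⟩ := h3
    rcases ht with ht | ht
    · exact u.2.1 (hu.trans ht)
    · exact u.2.2 (hu.trans ht)
  refine ⟨rename Subtype.val r, rename Subtype.val s, h2 i (Or.inl rfl), h2 j (Or.inr rfl), ?_⟩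
  rw [aeval_rename, aeval_rename]
  rfl

theorem pl_half (em : S_EMB) (ho : S_HOR) (fr : S_FRL) {κ : Type} [Fintype κ] [DecidableEq κ]
    {n : κ → ℕ} {k : Type} [Field k] [CharZero k] {F : MvPolynomial (Pc n) k}
    (hF : MH Set.univ (fun _ => 2) F) (hn : ∀ l, 2 ≤ n l)
    (hsm : Smth (map (algebraMap k (AlgebraicClosure k)) F)) (hirr : Irreducible F)
    (hgc : GoodC F) {K : Type} [Field K] [Algebra k K] {x : Pc n → K} (hx : Gen F x)
    {l : κ} {i j : Fin (n l + 1)} (hij : i ≠ j) {π : MvPolynomial (Pc n) k} (hπ : Irreducible π)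
    (hi : (⟨l, i⟩ : Pc n) ∉ π.vars) (hj : (⟨l, j⟩ : Pc n) ∉ π.vars) {a : Pc n → k}
    (hai : a ⟨l, i⟩ = 0) (haj : a ⟨l, j⟩ = 0) (haπ : ∑ t, C (a t) * pderiv t π ≠ 0)
    {Ω : Type} [Field Ω] [CharZero Ω] [IsAlgClosed Ω] [Algebra k Ω] {ξ : Pc n → Ω}
    (h1 : aeval ξ π = 0)
    (h2 : ∀ f : MvPolynomial (Pc n) k, (⟨l, i⟩ : Pc n) ∉ f.vars → (⟨l, j⟩ : Pc n) ∉ f.vars →
      aeval ξ f = 0 → π ∣ f) (h3 : aeval ξ F = 0) (h4 : aeval ξ (pderiv (⟨l, i⟩ : Pc n) F) ≠ 0)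
    (h5 : Transcendental (Lo k ξ (⟨l, i⟩ : Pc n) ⟨l, j⟩) (ξ ⟨l, j⟩)) :
    ∃ σ : K →+* Pui Ω,
    (∀ c : k, σ (algebraMap k K c) = ps Ω (PowerSeries.C (algebraMap k Ω c))) ∧
    (∀ t : Pc n, t ≠ ⟨l, i⟩ → σ (x t) = ps Ω (PowerSeries.C (ξ t) +
      PowerSeries.C (algebraMap k Ω (a t)) * PowerSeries.X)) ∧
    (∀ r : K, ∃ f g : PowerSeries Ω, g ≠ 0 ∧ σ r * ps Ω g = ps Ω f) ∧
    ∃ (l' : κ) (i' j' : Fin (n l' + 1)), i' ≠ j' ∧
      ∃ ρ : Lo k x (⟨l', i'⟩ : Pc n) ⟨l', j'⟩ →+* PowerSeries Ω,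
        ∀ y : Lo k x (⟨l', i'⟩ : Pc n) ⟨l', j'⟩, σ (y : K) = ps Ω (ρ y) := by
  classical
  have hne : (⟨l, i⟩ : Pc n) ≠ ⟨l, j⟩ := by
    intro h
    apply hij
    simpa using h
  obtain ⟨ψ, hψC, hψc, hψX, hψ0⟩ := em (Pc n) k Ω F π ⟨l, i⟩ ⟨l, j⟩ ξ a hne hirr hπ hi hj h1 h2 h3
    h4 h5 hai haj haπ
  have hps0 : ∀ f : PowerSeries Ω, ps Ω f = 0 ↔ f = 0 := fun f =>
    map_eq_zero_iff (ps Ω) (ps_injective Ω)
  obtain ⟨σ, hσ⟩ := fr (Pc n) k K (Pui Ω) F x hx ((ps Ω).comp ψ) (fun f => by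
    rw [RingHom.comp_apply, hps0, hψ0])
  have hσ' : ∀ f : MvPolynomial (Pc n) k, σ (aeval x f) = ps Ω (ψ f) := hσ
  -- the nonzero blocks
  have hnz : ∀ m, ∃ b, ξ ⟨m, b⟩ ≠ 0 := by
    intro m
    by_cases hm : m = l
    · subst hm
      refine ⟨j, fun h => h5 ?_⟩
      rw [h]
      exact isAlgebraic_zero
    · by_contra hcon
      push Not at hcon
      have hX : ∀ b : Fin (n m + 1), π ∣ X (⟨m, b⟩ : Pc n) := by
        intro b
        have hv : ∀ c, (⟨l, c⟩ : Pc n) ∉ (X (⟨m, b⟩ : Pc n) : MvPolynomial (Pc n) k).vars := by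
          intro c h
          rw [vars_X, Finset.mem_singleton] at h
          exact hm (congrArg Sigma.fst h).symm
        refine h2 _ (hv i) (hv j) ?_
        rw [aeval_X]
        exact hcon b
      have hnm := hn m
      have h6 : (⟨m, ⟨0, by omega⟩⟩ : Pc n) ≠ ⟨m, ⟨1, by omega⟩⟩ := by
        intro h
        simp at h
      have h7 : Associated π (X (⟨m, ⟨0, by omega⟩⟩ : Pc n)) :=
        hπ.associated_of_dvd (MvPolynomial.X_prime).irreducible (hX _)
      have h8 := h7.symm.dvd.trans (hX ⟨1, by omega⟩)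
      rw [X_dvd_X] at h8
      exact h6 h8
  -- the independent family
  obtain ⟨t₀, ht₀⟩ := exists_var hπ
  have h0i : t₀ ≠ ⟨l, i⟩ := fun h => hi (h ▸ ht₀)
  have h0j : t₀ ≠ ⟨l, j⟩ := fun h => hj (h ▸ ht₀)
  set S : Finset (Pc n) := ((Finset.univ.erase (⟨l, i⟩ : Pc n)).erase ⟨l, j⟩).erase t₀ with hS
  have hSm : ∀ t, t ∈ S ↔ t ≠ t₀ ∧ t ≠ ⟨l, j⟩ ∧ t ≠ ⟨l, i⟩ := by
    intro t
    rw [hS, Finset.mem_erase, Finset.mem_erase, Finset.mem_erase]
    simp
  have hSI : AlgebraicIndepOn k ξ (S : Set (Pc n)) := by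
    have h6 : AlgebraicIndependent k (fun t : S => ξ t) := by
      rw [algebraicIndependent_iff]
      intro p hp
      have h6 : aeval ξ (rename (Subtype.val : S → Pc n) p) = 0 := by
        rw [aeval_rename]
        exact hp
      have hv : ∀ t, t ∉ S → t ∉ (rename (Subtype.val : S → Pc n) p).vars := by
        intro t ht h
        have h3 := vars_rename _ _ h
        rw [Finset.mem_image] at h3
        obtain ⟨s, _, hs⟩ := h3
        exact ht (hs ▸ s.2)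
      have h7 : rename (Subtype.val : S → Pc n) p = 0 := by
        refine eq_zero_of_dvd (h2 _ (hv _ ?_) (hv _ ?_) h6) ht₀ (hv _ ?_)
        · exact fun h => ((hSm _).1 h).2.2 rfl
        · exact fun h => ((hSm _).1 h).2.1 rfl
        · exact fun h => ((hSm _).1 h).1 rfl
      exact rename_injective _ Subtype.val_injective (by rw [h7, map_zero])
    exact h6
  have hSj : ξ ⟨l, j⟩ ∉ cf k (ξ '' (S : Set (Pc n))) := by
    intro h
    apply h5
    unfold Lo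
    rw [IntermediateField.isAlgebraic_adjoin_iff, ← mem_cf]
    refine cf_le ?_ h
    rintro _ ⟨t, ht, rfl⟩
    refine subset_cf _ ⟨t, ?_, rfl⟩
    exact ⟨((hSm t).1 ht).2.2, ((hSm t).1 ht).2.1⟩
  have hI : AlgebraicIndepOn k ξ (insert (⟨l, j⟩ : Pc n) (S : Set (Pc n))) := by
    refine AlgebraicIndepOn.insert hSI ?_
    rw [mem_cf] at hSj
    exact hSj
  rw [← Finset.coe_insert] at hI
  have hcard : Fintype.card (Pc n) ≤ (insert (⟨l, j⟩ : Pc n) S).card + 2 := by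
    rw [Finset.card_insert_of_notMem fun h => ((hSm _).1 h).2.1 rfl, hS,
      Finset.card_erase_of_mem (Finset.mem_erase.2 ⟨h0j, Finset.mem_erase.2 ⟨h0i, Finset.mem_univ _⟩⟩),
      Finset.card_erase_of_mem (Finset.mem_erase.2 ⟨hne.symm, Finset.mem_univ _⟩),
      Finset.card_erase_of_mem (Finset.mem_univ _), Finset.card_univ]
    generalize Fintype.card (Pc n) = N
    omega
  -- the fibration
  obtain ⟨l', i', j', hne', hfib⟩ := ho κ n k F hF hn hsm Ω ξ hnz h3 (insert (⟨l, j⟩ : Pc n) S) hI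
    hcard ⟨π, h1, fun h => by
      have h6 : (⟨l, i⟩ : Pc n) ∈ F.vars := by
        by_contra h7
        apply (hgc l i).1
        rw [pderiv_eq_zero_of_notMem_vars h7, map_zero]
      exact hi (vars_subset_of_dvd h hπ.ne_zero h6)⟩
  have hcc : ∀ f, PowerSeries.constantCoeff (ψ f) = aeval ξ f := by
    intro f
    have h6 : (PowerSeries.constantCoeff (R := Ω)).comp ψ =
        ((aeval ξ : MvPolynomial (Pc n) k →ₐ[k] Ω) : MvPolynomial (Pc n) k →+* Ω) := by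
      refine MvPolynomial.ringHom_ext (fun c => ?_) (fun t => ?_)
      · rw [RingHom.comp_apply, hψC, PowerSeries.constantCoeff_C]
        exact (aeval_C ξ c).symm
      · rw [RingHom.comp_apply, hψc]
        exact (aeval_X ξ t).symm
    exact congrArg (fun g : MvPolynomial (Pc n) k →+* Ω => g f) h6
  have hrange : ∀ y ∈ Lo k x (⟨l', i'⟩ : Pc n) ⟨l', j'⟩, σ y ∈ (ps Ω).range := by
    intro y hy
    obtain ⟨r, s, hs1, hs2, rfl⟩ := mem_Lo x _ _ hy
    by_cases hs : aeval x s = 0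
    · rw [hs, div_zero, map_zero]
      exact zero_mem _
    · have h6 : aeval ξ s ≠ 0 := by
        intro h
        apply hs
        rw [hfib s hs1 hs2 h, map_zero]
      have h7 : IsUnit (ψ s) := by
        rw [PowerSeries.isUnit_iff_constantCoeff, hcc]
        exact isUnit_iff_ne_zero.2 h6
      obtain ⟨u, hu⟩ := h7
      refine ⟨ψ r * ((u⁻¹ : (PowerSeries Ω)ˣ) : PowerSeries Ω), ?_⟩
      have h8 : ps Ω (ψ s) ≠ 0 := by
        rw [← hσ']
        exact (map_ne_zero σ).2 hs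
      rw [map_div₀, hσ', hσ', eq_div_iff h8, ← map_mul, mul_assoc, ← hu, Units.inv_mul, mul_one]
  refine ⟨σ, ?_, ?_, ?_, l', i', j', hne', ?_⟩
  · intro c
    have h6 := hσ' (C c)
    rw [aeval_C, hψC] at h6
    exact h6
  · intro t ht
    have h6 := hσ' (X t)
    rw [aeval_X, hψX t ht] at h6
    exact h6
  · intro r
    have h6 : r ∈ IntermediateField.adjoin k (Set.range x) := by
      rw [hx.top]
      exact IntermediateField.mem_top
    rw [IntermediateField.mem_adjoin_range_iff] at h6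
    obtain ⟨f, g, rfl⟩ := h6
    by_cases hg : aeval x g = 0
    · refine ⟨0, 1, one_ne_zero, ?_⟩
      rw [hg, div_zero, map_zero, zero_mul, map_zero]
    · have h8 : ps Ω (ψ g) ≠ 0 := by
        rw [← hσ']
        exact (map_ne_zero σ).2 hg
      refine ⟨ψ f, ψ g, fun h => h8 (by rw [h, map_zero]), ?_⟩
      rw [map_div₀, hσ', hσ', div_mul_cancel₀ _ h8]
  · let e : PowerSeries Ω ≃+* (ps Ω).range :=
      RingEquiv.ofBijective (ps Ω).rangeRestrict ⟨fun a b hab => ps_injective Ω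
        (congrArg Subtype.val hab), (ps Ω).rangeRestrict_surjective⟩
    let τ : Lo k x (⟨l', i'⟩ : Pc n) ⟨l', j'⟩ →+* (ps Ω).range :=
      (σ.comp (Lo k x (⟨l', i'⟩ : Pc n) ⟨l', j'⟩).val.toRingHom).codRestrict (ps Ω).range
        (fun y => hrange y.1 y.2)
    refine ⟨e.symm.toRingHom.comp τ, fun y => ?_⟩
    have h6 : e (e.symm (τ y)) = τ y := e.apply_symm_apply _
    have h7 : ps Ω (e.symm (τ y)) = σ y := congrArg Subtype.val h6
    exact h7.symm

theorem pl (gp : S_GP) (em : S_EMB) (ho : S_HOR) (fr : S_FRL) (_ma : S_MAT) : S_PL := by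
  intro κ _ _ n k _ _ F hF hn hsm hirr hgc K _ _ x hx l i j hij π hπ hi hj a hai haj haπ
  obtain ⟨Ω, _, _, _, _, ξ, h1, h2, h3, h4⟩ := gp κ n k F hF hn hsm l i j hij
    ((hgc l i).2 j hij.symm) π hπ hi hj
  rcases h4 with ⟨h4, h5⟩ | ⟨h4, h5⟩
  · obtain ⟨σ, hσ1, hσ2, hσ3, hσ4⟩ := pl_half em ho fr hF hn hsm hirr hgc hx hij hπ hi hj hai haj haπ
      h1 h2 h3 h4 h5
    exact ⟨Ω, _, inferInstance, inferInstance, _, ξ, σ, h1, h2, hσ1, fun t ht _ => hσ2 t ht, hσ3,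
      hσ4⟩
  · have hLo : Lo k ξ (⟨l, i⟩ : Pc n) ⟨l, j⟩ = Lo k ξ (⟨l, j⟩ : Pc n) ⟨l, i⟩ := by
      unfold Lo
      congr 2
      ext t
      exact and_comm
    rw [hLo] at h5
    obtain ⟨σ, hσ1, hσ2, hσ3, hσ4⟩ := pl_half em ho fr hF hn hsm hirr hgc hx hij.symm hπ hj hi haj
      hai haπ h1 (fun f hf1 hf2 => h2 f hf2 hf1) h3 h4 h5
    exact ⟨Ω, _, inferInstance, inferInstance, _, ξ, σ, h1, h2, hσ1, fun t _ ht => hσ2 t ht, hσ3,
      hσ4⟩

end Pool.Agent.Q182.HB
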